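import Pool.Agent.Helper10.RBC.Goals
import Pool.Agent.Helper35.SP.L2C

/-! # RBC, goal RSC: bounded functions of small energy converge to constants -/

open Complex Metric Set Filter Topology MeasureTheory
open scoped ContDiff ComplexConjugate ComplexOrder Manifold Matrix

namespace Pool.Agent.Helper29.RBC

open Pool.Agent.Helper95.Lin Pool.Agent.Helper16.Abund Pool.Agent.Helper92.Orb
  Pool.Agent.Helper10.SP Pool.Agent.Helper95.RK Pool.Agent.Helper57.HS
  Pool.Agent.Helper15.HS Pool.Agent.Helper15.GS Pool.Agent.Helper57.RBC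
  Pool.Agent.Helper10.RBC

universe u v

variable {n : ℕ} {T : Set (Cn n)} {G : Type u} [Group G] {R : G → Cn n → Cn n → Prop}
  {H : Cn n → Matrix (Fin n) (Fin n) ℂ}

/-- If the weighted integrals over a ball tend to `0`, the function vanishes at the centre. -/
theorem zero_of_tendsto (hQ : S_LOWQ.{u}) (hK : KEt T R H) (K : ℝ) (u : ℕ → Cn n → ℝ)
    (hu : ∀ j, QPF T R H K (u j)) (g : Cn n → ℝ) {x₀ : Cn n} {δ : ℝ} (hδ : 0 < δ)
    (hB : closedBall x₀ δ ⊆ T) (hg : ContinuousOn g (closedBall x₀ δ))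
    (hg0 : ∀ x ∈ closedBall x₀ δ, 0 ≤ g x)
    (hlim : Tendsto (fun j => ∫ x in closedBall x₀ δ, Real.exp (u j x) * g x) atTop (𝓝 0)) :
    g x₀ = 0 := by
  by_contra hne
  have hx₀ : x₀ ∈ closedBall x₀ δ := mem_closedBall_self hδ.le
  have hpos : 0 < g x₀ := lt_of_le_of_ne (hg0 x₀ hx₀) (Ne.symm hne)
  have hca : ContinuousAt g x₀ := hg.continuousAt (closedBall_mem_nhds x₀ hδ)
  have hev : ∀ᶠ x in 𝓝 x₀, g x₀ / 2 < g x := hca.eventually_const_lt (by linarith)
  obtain ⟨δ₁, hδ₁, hb⟩ := Metric.eventually_nhds_iff_ball.1 hev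
  set r := min δ (δ₁ / 2) with hr
  have hr0 : 0 < r := lt_min hδ (by positivity)
  have hrδ : closedBall x₀ r ⊆ closedBall x₀ δ := closedBall_subset_closedBall (min_le_left _ _)
  have hrδ₁ : closedBall x₀ r ⊆ ball x₀ δ₁ :=
    closedBall_subset_ball (lt_of_le_of_lt (min_le_right _ _) (by linarith))
  have hvol : 0 < volume (closedBall x₀ r) := measure_closedBall_pos volume x₀ hr0
  obtain ⟨c, hc, hlow⟩ := hQ T R H hK K (closedBall x₀ r) (hrδ.trans hB)
    (isCompact_closedBall _ _) hvol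
  have hge : ∀ j, g x₀ / 2 * c ≤ ∫ x in closedBall x₀ δ, Real.exp (u j x) * g x := by
    intro j
    have huc : ContinuousOn (u j) T := (hu j).inv.1.continuousOn
    have hec : ContinuousOn (fun x => Real.exp (u j x)) T := huc.rexp
    calc g x₀ / 2 * c ≤ g x₀ / 2 * ∫ x in closedBall x₀ r, Real.exp (u j x) :=
          mul_le_mul_of_nonneg_left (hlow (u j) (hu j)) (by linarith)
      _ = ∫ x in closedBall x₀ r, g x₀ / 2 * Real.exp (u j x) := by
          rw [integral_const_mul]
      _ ≤ ∫ x in closedBall x₀ r, Real.exp (u j x) * g x := by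
          refine setIntegral_mono_on ?_ ?_ isClosed_closedBall.measurableSet fun x hx => ?_
          · exact (continuousOn_const.mul (hec.mono (hrδ.trans hB))).integrableOn_compact
              (isCompact_closedBall _ _)
          · exact ((hec.mono (hrδ.trans hB)).mul (hg.mono hrδ)).integrableOn_compact
              (isCompact_closedBall _ _)
          · have h1 := (hb x (hrδ₁ hx)).le
            have h2 := Real.exp_pos (u j x)
            nlinarith
      _ ≤ ∫ x in closedBall x₀ δ, Real.exp (u j x) * g x := by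
          refine setIntegral_mono_set ?_ ?_ (LE.le.eventuallyLE hrδ)
          · exact ((hec.mono hB).mul hg).integrableOn_compact (isCompact_closedBall _ _)
          · exact (ae_restrict_iff' isClosed_closedBall.measurableSet).2
              (Eventually.of_forall fun x hx => mul_nonneg (Real.exp_pos _).le (hg0 x hx))
  have := ge_of_tendsto hlim (Eventually.of_forall hge)
  have : 0 < g x₀ / 2 * c := by positivity
  linarith

/-- A holomorphic function with real values on an open set has derivative zero. -/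
theorem fderiv_zero_of_real {p : Cn n → ℂ} (hT : IsOpen T) (hp : DifferentiableOn ℂ p T)
    (him : ∀ x ∈ T, (p x).im = 0) : ∀ x ∈ T, fderiv ℂ p x = 0 := by
  intro x hx
  have hd : HasFDerivAt p (fderiv ℂ p x) x :=
    ((hp x hx).differentiableAt (hT.mem_nhds hx)).hasFDerivAt
  have him' : ∀ v, (fderiv ℂ p x v).im = 0 := by
    intro v
    have h1 : HasFDerivAt (fun y => (p y).im)
        (Complex.imCLM.comp ((fderiv ℂ p x).restrictScalars ℝ)) x :=
      Complex.imCLM.hasFDerivAt.comp x (hd.restrictScalars ℝ)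
    have h2 : (fun y => (p y).im) =ᶠ[𝓝 x] fun _ => (0 : ℝ) := by
      filter_upwards [hT.mem_nhds hx] with y hy
      exact him y hy
    have h3 : HasFDerivAt (fun y => (p y).im) (0 : Cn n →L[ℝ] ℝ) x :=
      (hasFDerivAt_const (0 : ℝ) x).congr_of_eventuallyEq h2
    have h4 := h1.unique h3
    have h5 := DFunLike.congr_fun h4 v
    simpa using h5
  ext1 v
  refine Complex.ext ?_ (by simpa using him' v)
  have h1 := him' (Complex.I • v)
  rw [map_smul] at h1
  simpa using h1

/-- RSC -/
theorem rsc (hA : S_ARRB.{u}) (hL : S_LIMG.{u}) (hQ : S_LOWQ.{u}) : S_RSC.{u} := by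
  intro n T G _ R H hK K B u f hu hf hfB hen
  have hT : IsOpen T := hK.et.isOpen
  obtain ⟨φ, hφ, P, hP, hconv⟩ := hL (ι := Unit) T R H hK K u (fun j x _ => (f j x : ℂ)) hu
    (fun j _ => Complex.ofRealCLM.contDiff.comp_contDiffOn (hf j).1)
    (fun C hC _ => ⟨B, fun j x hx _ => by
      rw [Complex.norm_real, Real.norm_eq_abs]
      exact hfB j x (hC hx)⟩)
    (fun C hC hCc l _ => hen C hC hCc l)
  set p : Cn n → ℂ := fun x => P x () with hp
  have hpd : DifferentiableOn ℂ p T := hP ()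
  have hpc : ContinuousOn p T := hpd.continuousOn
  have hcv : ∀ C ⊆ T, IsCompact C → Tendsto (fun j => ∫ x in C, Real.exp (u (φ j) x) *
      ‖(f (φ j) x : ℂ) - p x‖) atTop (𝓝 0) := fun C hC hCc => hconv C hC hCc ()
  have huφ : ∀ j, QPF T R H K (u (φ j)) := fun j => hu (φ j)
  have huc : ∀ j, ContinuousOn (fun x => Real.exp (u j x)) T := fun j =>
    (hu j).inv.1.continuousOn.rexp
  have hfc : ∀ j, ContinuousOn (fun x => (f j x : ℂ)) T := fun j =>
    Complex.continuous_ofReal.comp_continuousOn (hf j).1.continuousOn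
  -- `p` is real
  have him : ∀ x ∈ T, (p x).im = 0 := by
    intro x₀ hx₀
    obtain ⟨δ, hδ, hB⟩ := Metric.nhds_basis_closedBall.mem_iff.1 (hT.mem_nhds hx₀)
    have h := zero_of_tendsto hQ hK K (fun j => u (φ j)) huφ (fun x => |(p x).im|) hδ hB
      ((Complex.continuous_im.comp_continuousOn (hpc.mono hB)).abs) (fun x _ => abs_nonneg _) ?_
    · exact abs_eq_zero.1 h
    · refine squeeze_zero (fun j => ?_) (fun j => ?_) (hcv _ hB (isCompact_closedBall _ _))
      · exact setIntegral_nonneg isClosed_closedBall.measurableSet fun x _ =>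
          mul_nonneg (Real.exp_pos _).le (abs_nonneg _)
      · refine setIntegral_mono_on ?_ ?_ isClosed_closedBall.measurableSet fun x _ => ?_
        · exact (((huc (φ j)).mono hB).mul
            (Complex.continuous_im.comp_continuousOn (hpc.mono hB)).abs).integrableOn_compact
              (isCompact_closedBall _ _)
        · exact (((huc (φ j)).mono hB).mul
            (((hfc (φ j)).mono hB).sub (hpc.mono hB)).norm).integrableOn_compact
              (isCompact_closedBall _ _)
        · refine mul_le_mul_of_nonneg_left ?_ (Real.exp_pos _).le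
          have h1 := Complex.abs_im_le_norm ((f (φ j) x : ℂ) - p x)
          simpa using h1
  -- `p` is invariant
  have hinv : ∀ γ x y, R γ x y → p y = p x := by
    intro γ x₀ y₀ hR
    obtain ⟨U, τ, σ, hx₀U, hUT, hLA, hτx, hinj, -, -⟩ := (hA T R hK.et).1 γ x₀ y₀ hR
    have hdet := (hA T R hK.et).2.1 γ U τ hLA
    have hU := hLA.1
    have hτd := hLA.2.1
    have hτc : ContinuousOn τ U := hτd.continuousOn
    have hτT : ∀ x ∈ U, τ x ∈ T := fun x hx => (hK.et.mem γ x (τ x) (hLA.2.2 x hx)).2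
    obtain ⟨δ, hδ, hNU⟩ := Metric.nhds_basis_closedBall.mem_iff.1 (hU.mem_nhds hx₀U)
    set N := closedBall x₀ δ with hN
    have hNc : IsCompact N := isCompact_closedBall _ _
    have hNT : N ⊆ T := hNU.trans hUT
    have hτN : ContinuousOn τ N := hτc.mono hNU
    have hmapsN : MapsTo τ N T := fun x hx => hτT x (hNU hx)
    have himg : τ '' N ⊆ T := by
      rintro _ ⟨x, hx, rfl⟩
      exact hmapsN hx
    have hJc : ContinuousOn (fun x => (fderiv ℂ τ x).det) N :=
      (Pool.Agent.Helper35.SP.det_holo hU hτd).continuousOn.mono hNU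
    obtain ⟨M, hM⟩ := hNc.exists_bound_of_continuousOn
      (f := fun x => (‖(fderiv ℂ τ x).det‖ ^ 2)⁻¹)
      ((hJc.norm.pow 2).inv₀ fun x hx => pow_ne_zero 2
        (norm_ne_zero_iff.2 (hdet x (hNU hx)).1))
    have hM' : ∀ x ∈ N, 1 ≤ M * ‖(fderiv ℂ τ x).det‖ ^ 2 := by
      intro x hx
      have h1 := hM x hx
      have h2 : 0 < ‖(fderiv ℂ τ x).det‖ ^ 2 := pow_pos
        (norm_pos_iff.2 (hdet x (hNU hx)).1) 2
      rw [Real.norm_of_nonneg (by positivity)] at h1
      calc (1 : ℝ) = (‖(fderiv ℂ τ x).det‖ ^ 2)⁻¹ * ‖(fderiv ℂ τ x).det‖ ^ 2 :=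
            (inv_mul_cancel₀ h2.ne').symm
        _ ≤ M * ‖(fderiv ℂ τ x).det‖ ^ 2 := mul_le_mul_of_nonneg_right h1 h2.le
    have h := zero_of_tendsto hQ hK K (fun j => u (φ j)) huφ (fun x => ‖p (τ x) - p x‖) hδ hNT
      (((hpc.comp hτN hmapsN).sub (hpc.mono hNT)).norm) (fun x _ => norm_nonneg _) ?_
    · have h1 := norm_eq_zero.1 h
      rw [hτx] at h1
      exact sub_eq_zero.1 h1
    · have hlim : Tendsto (fun j => M * (∫ x in τ '' N, Real.exp (u (φ j) x) *
          ‖(f (φ j) x : ℂ) - p x‖) + ∫ x in N, Real.exp (u (φ j) x) *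
          ‖(f (φ j) x : ℂ) - p x‖) atTop (𝓝 0) := by
        have h1 := ((hcv _ himg (hNc.image_of_continuousOn hτN)).const_mul M).add (hcv _ hNT hNc)
        simpa using h1
      refine squeeze_zero (fun j => ?_) (fun j => ?_) hlim
      · exact setIntegral_nonneg isClosed_closedBall.measurableSet fun x _ =>
          mul_nonneg (Real.exp_pos _).le (norm_nonneg _)
      · -- change of variables
        have hcvar : ∫ y in τ '' N, Real.exp (u (φ j) y) * ‖(f (φ j) y : ℂ) - p y‖ =
            ∫ x in N, ‖(fderiv ℂ τ x).det‖ ^ 2 *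
              (Real.exp (u (φ j) (τ x)) * ‖(f (φ j) (τ x) : ℂ) - p (τ x)‖) := by
          have h1 := integral_image_eq_integral_abs_det_fderiv_smul volume
            hNc.isClosed.measurableSet
            (f := τ) (f' := fun x => (fderiv ℂ τ x).restrictScalars ℝ)
            (fun x hx => (((hτd x (hNU hx)).differentiableAt
              (hU.mem_nhds (hNU hx))).hasFDerivAt.restrictScalars ℝ).hasFDerivWithinAt)
            (hinj.mono hNU) (fun y => Real.exp (u (φ j) y) * ‖(f (φ j) y : ℂ) - p y‖)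
          rw [h1]
          refine setIntegral_congr_fun hNc.isClosed.measurableSet fun x hx => ?_
          simp only [smul_eq_mul, Pool.Agent.Helper36.Abund.det_restrictScalars_eq]
          rw [abs_of_nonneg (by positivity)]
        have hI1 : IntegrableOn (fun x => M * (‖(fderiv ℂ τ x).det‖ ^ 2 *
            (Real.exp (u (φ j) (τ x)) * ‖(f (φ j) (τ x) : ℂ) - p (τ x)‖))) N := by
          refine ContinuousOn.integrableOn_compact hNc (continuousOn_const.mul
            ((hJc.norm.pow 2).mul ?_))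
          exact ((huc (φ j)).comp hτN hmapsN).mul
            ((((hfc (φ j)).comp hτN hmapsN).sub (hpc.comp hτN hmapsN)).norm)
        have hI2 : IntegrableOn (fun x => Real.exp (u (φ j) x) *
            ‖(f (φ j) x : ℂ) - p x‖) N :=
          (((huc (φ j)).mono hNT).mul
            (((hfc (φ j)).mono hNT).sub (hpc.mono hNT)).norm).integrableOn_compact hNc
        rw [hcvar, ← integral_const_mul, ← integral_add hI1 hI2]
        refine setIntegral_mono_on ?_ (hI1.add hI2) hNc.isClosed.measurableSet fun x hx => ?_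
        · exact (((huc (φ j)).mono hNT).mul
            (((hpc.comp hτN hmapsN).sub (hpc.mono hNT)).norm)).integrableOn_compact hNc
        · have hRx := hLA.2.2 x (hNU hx)
          have hux : u (φ j) (τ x) = u (φ j) x := (hu (φ j)).inv.2 γ x (τ x) hRx
          have hfx : f (φ j) (τ x) = f (φ j) x := (hf (φ j)).2 γ x (τ x) hRx
          have e0 := Real.exp_pos (u (φ j) x)
          have h1 := hM' x hx
          have h2 : ‖p (τ x) - p x‖ ≤ ‖(f (φ j) x : ℂ) - p (τ x)‖ +
              ‖(f (φ j) x : ℂ) - p x‖ := by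
            have : p (τ x) - p x = -((f (φ j) x : ℂ) - p (τ x)) + ((f (φ j) x : ℂ) - p x) := by
              ring
            rw [this]
            refine (norm_add_le _ _).trans ?_
            rw [norm_neg]
          change Real.exp (u (φ j) x) * ‖p (τ x) - p x‖ ≤ M * (‖(fderiv ℂ τ x).det‖ ^ 2 *
            (Real.exp (u (φ j) (τ x)) * ‖(f (φ j) (τ x) : ℂ) - p (τ x)‖)) +
            Real.exp (u (φ j) x) * ‖(f (φ j) x : ℂ) - p x‖
          rw [hux, hfx]
          have h3 : Real.exp (u (φ j) x) * ‖(f (φ j) x : ℂ) - p (τ x)‖ ≤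
              M * (‖(fderiv ℂ τ x).det‖ ^ 2 *
              (Real.exp (u (φ j) x) * ‖(f (φ j) x : ℂ) - p (τ x)‖)) := by
            have h4 : 0 ≤ Real.exp (u (φ j) x) * ‖(f (φ j) x : ℂ) - p (τ x)‖ := by positivity
            calc Real.exp (u (φ j) x) * ‖(f (φ j) x : ℂ) - p (τ x)‖
                = 1 * (Real.exp (u (φ j) x) * ‖(f (φ j) x : ℂ) - p (τ x)‖) := (one_mul _).symm
              _ ≤ (M * ‖(fderiv ℂ τ x).det‖ ^ 2) *
                (Real.exp (u (φ j) x) * ‖(f (φ j) x : ℂ) - p (τ x)‖) :=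
                  mul_le_mul_of_nonneg_right h1 h4
              _ = _ := by ring
          calc Real.exp (u (φ j) x) * ‖p (τ x) - p x‖
              ≤ Real.exp (u (φ j) x) * (‖(f (φ j) x : ℂ) - p (τ x)‖ +
                ‖(f (φ j) x : ℂ) - p x‖) := mul_le_mul_of_nonneg_left h2 e0.le
            _ ≤ _ := by rw [mul_add]; linarith
  -- `p` is constant
  have hfd := fderiv_zero_of_real hT hpd him
  obtain ⟨x₀, hx₀⟩ := hK.et.nonempty
  have hloc : ∀ x ∈ T, ∃ V ∈ 𝓝 x, V ⊆ T ∧ ∀ y ∈ V, p y = p x := by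
    intro x hx
    obtain ⟨δ, hδ, hB⟩ := Metric.nhds_basis_ball.mem_iff.1 (hT.mem_nhds hx)
    refine ⟨ball x δ, ball_mem_nhds x hδ, hB, fun y hy => ?_⟩
    exact isOpen_ball.is_const_of_fderiv_eq_zero (convex_ball x δ).isPreconnected
      (hpd.mono hB) (fun z hz => hfd z (hB hz)) hy (mem_ball_self hδ)
  have hS1 : IsOpen {x | x ∈ T ∧ p x = p x₀} := by
    rw [isOpen_iff_mem_nhds]
    rintro x ⟨hx, hpx⟩
    obtain ⟨V, hV, hVT, hVp⟩ := hloc x hx
    filter_upwards [hV] with y hy
    exact ⟨hVT hy, (hVp y hy).trans hpx⟩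
  have hS2 : IsOpen (T \ {x | x ∈ T ∧ p x = p x₀}) := by
    rw [isOpen_iff_mem_nhds]
    rintro x ⟨hx, hpx⟩
    obtain ⟨V, hV, hVT, hVp⟩ := hloc x hx
    filter_upwards [hV] with y hy
    exact ⟨hVT hy, fun h => hpx ⟨hx, (hVp y hy).symm.trans h.2⟩⟩
  have hS3 : ∀ γ x y, R γ x y → (x ∈ {x | x ∈ T ∧ p x = p x₀} ↔
      y ∈ {x | x ∈ T ∧ p x = p x₀}) := by
    intro γ x y hR
    have h1 := hinv γ x y hR
    have h2 := hK.et.mem γ x y hR
    constructor
    · rintro ⟨_, h⟩
      exact ⟨h2.2, h1.trans h⟩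
    · rintro ⟨_, h⟩
      exact ⟨h2.1, h1.symm.trans h⟩
  have hS : {x | x ∈ T ∧ p x = p x₀} = T := by
    rcases hK.et.conn _ (fun x hx => hx.1) hS1 hS2 hS3 with h | h
    · exact absurd (show x₀ ∈ ({x | x ∈ T ∧ p x = p x₀} : Set (Cn n)) from ⟨hx₀, rfl⟩)
        (by rw [h]; exact notMem_empty x₀)
    · exact h
  have hconst : ∀ x ∈ T, p x = (((p x₀).re : ℝ) : ℂ) := by
    intro x hx
    have h1 : x ∈ {x | x ∈ T ∧ p x = p x₀} := by rw [hS]; exact hx
    rw [h1.2]
    exact Complex.ext (by simp) (by simpa using him x₀ hx₀)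
  refine ⟨φ, hφ, (p x₀).re, fun C hC hCc => ?_⟩
  refine (hcv C hC hCc).congr fun j => ?_
  refine setIntegral_congr_fun hCc.isClosed.measurableSet fun x hx => ?_
  simp only [hconst x (hC hx)]
  rw [← Complex.ofReal_sub, Complex.norm_real, Real.norm_eq_abs]

end Pool.Agent.Helper29.RBC
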