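import Pool.Agent.Helper10.RBC.Goals
import Pool.Agent.Helper16.HS.AYT
import Pool.Agent.Helper97.HS.MOMP

/-! # RBC, goal RLV: the volumes of the metrics of the family -/

open Complex Metric Set Filter Topology MeasureTheory
open scoped ContDiff ComplexConjugate ComplexOrder Manifold Matrix

namespace Pool.Agent.Helper29.RBC

open Pool.Agent.Helper95.Lin Pool.Agent.Helper16.Abund Pool.Agent.Helper92.Orb
  Pool.Agent.Helper10.SP Pool.Agent.Helper95.RK Pool.Agent.Helper57.HS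
  Pool.Agent.Helper15.HS Pool.Agent.Helper15.GS Pool.Agent.Helper57.RBC
  Pool.Agent.Helper10.RBC Pool.Agent.Helper16.HS.AYTP Pool.Agent.Helper97.HS

universe u v

/-- RLV -/
theorem rlv (hMOMG : S_MOMG.{u}) (hRHOI : S_RHOI.{u}) (hRFAM : S_RFAM.{u}) : S_RLV.{u} := by
  intro n T G _ R H hH κ hκ ε N φ H' Q hε hF hQ
  have hT : IsOpen T := hH.et.isOpen
  have hHer : HerT T R H := ⟨hH.posDef, hH.smooth, hH.inv⟩
  obtain ⟨hr1, hr2, hr3, hr4, hr5⟩ := hRHOI T R H hH.et hHer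
  obtain ⟨hw, -⟩ := hr5 Q ⟨hQ.ket.posDef, hQ.ket.smooth, hQ.ket.inv⟩
  have hHc : CHF H T := ⟨hH.smooth, fun x hx => (hH.posDef x hx).isHermitian, hH.closed⟩
  have hkey := (hRFAM T R H hH N φ H' hF ε Q hε hQ).2
  set ψ : Cn n → ℝ := fun y => ε * φ y + (ld Q y - ld H y) with hψ
  have hψi : InvF T R ψ := by
    refine ⟨(contDiffOn_const.mul hF.inv.1).add hw.1, fun γ x y hR => ?_⟩
    have h0 := hF.inv.2 γ x y hR
    have h1 := hw.2 γ x y hR
    simp only at h1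
    rw [hψ]
    simp only
    rw [h0, h1]
  have part1 : ∀ β : Cn n → Matrix (Fin n) (Fin n) ℂ, CHF β T → InvH R β →
    ∫ x in T, κ x * (Q x + β x).det.re =
      ∫ x in T, κ x * (((1 + ε * N : ℝ) : ℂ) • rho H x + (ε : ℂ) • H x + β x).det.re := by
    intro β hβ hβi
    have hZ : CHF (fun x => ((1 + ε * N : ℝ) : ℂ) • rho H x + (ε : ℂ) • H x + β x) T :=
      chf_ad hT (chf_ad hT (chf_sm hT hr1 _) (chf_sm hT hHc _)) hβ
    have hZi : InvH R (fun x => ((1 + ε * N : ℝ) : ℂ) • rho H x + (ε : ℂ) • H x + β x) :=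
      invH_ad (invH_ad (invH_sm hr2 _) (invH_sm hH.inv _)) hβi
    rw [← hMOMG T R H hH κ hκ _ hZ hZi ψ hψi]
    refine setIntegral_congr_fun hT.measurableSet fun x hx => ?_
    have h1 : Q x + β x = ((1 + ε * N : ℝ) : ℂ) • rho H x + (ε : ℂ) • H x + β x +
        LM ψ x := by
      rw [hkey x hx]
      abel
    change κ x * (Q x + β x).det.re = _
    rw [h1]
  refine ⟨part1, fun t => ?_⟩
  rw [part1 (fun x => (t : ℂ) • H x) (chf_sm hT hHc t) (invH_sm hH.inv _)]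
  unfold VolP
  rw [← integral_const_mul]
  have ha : 0 < 1 + ε * N := by
    have := mul_nonneg hε.le hF.nn
    linarith
  refine setIntegral_congr_fun hT.measurableSet fun x hx => ?_
  have h1 : ((1 + ε * N : ℝ) : ℂ) • rho H x + (ε : ℂ) • H x + (t : ℂ) • H x =
      ((1 + ε * N : ℝ) : ℂ) • (rho H x + (((ε + t) / (1 + ε * N) : ℝ) : ℂ) • H x) := by
    rw [smul_add, smul_smul, ← Complex.ofReal_mul, mul_div_cancel₀ _ ha.ne', add_assoc,
      ← add_smul, ← Complex.ofReal_add]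
  change κ x * (((1 + ε * N : ℝ) : ℂ) • rho H x + (ε : ℂ) • H x + (t : ℂ) • H x).det.re =
    (1 + ε * N) ^ n * (κ x * (rho H x + (((ε + t) / (1 + ε * N) : ℝ) : ℂ) • H x).det.re)
  rw [h1, Matrix.det_smul, Fintype.card_fin, ← Complex.ofReal_pow, Complex.re_ofReal_mul]
  ring

end Pool.Agent.Helper29.RBC
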